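import Pool.Agent.helper65.GD.Spec

/-!
# Row gdm:FIN (MP_ea335c_an): the theorem
-/

set_option autoImplicit false

namespace Pool.Agent.GD

open Finset Metric Filter Topology

theorem FIN (hSTR : STR_stmt) (hAPX : APX_stmt) (hEXR : EXR_stmt) (hGHI : GHI_stmt)
    (hINT : INT_stmt) (hLIM : LIM_stmt) : FIN_stmt := by
  intro f p n hf hpn hvan
  have hp1 : 1 ≤ p := hf.one_le
  obtain ⟨c, b, μ, G, P, hb, hG, hμ0, hser, hre, hcoef⟩ := hSTR f p hf
  have happ : Approx μ := hAPX P μ hμ0 hser hre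
  obtain ⟨H, hH⟩ := hEXR (-(2 * p)) μ
  have hGH := hGHI (2 * p) μ G H hG hH
  obtain ⟨k, rfl⟩ : ∃ k, n = p + k := ⟨n - p, by omega⟩
  have hk1 : 1 ≤ k := by omega
  have hinterp := hINT p k b (fun n => ∑ m ∈ range (n + 1), b m * G (n - m)) G H hp1 hk1 hb hGH (fun n => rfl)
  set g : ℕ → ℂ := fun n => ∑ m ∈ range (n + 1), b m * G (n - m) with hg
  have hcg : ∀ n, ‖N2b689f5b.coeff f n‖ = ‖c‖ * ‖g n‖ := by
    intro n
    rw [hcoef n, norm_mul]
  have hterm : ∀ j ∈ Icc 1 p, (‖al p k (p - j) G H‖ + ‖be p k (p - j) G H‖) * ‖N2b689f5b.coeff f j‖ ≤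
      AA p (p + k) j * ‖N2b689f5b.coeff f j‖ := by
    intro j hj
    have hj1 : 1 ≤ j := (Finset.mem_Icc.mp hj).1
    have hjp : j ≤ p := (Finset.mem_Icc.mp hj).2
    by_cases hC : Cnd p k (p - j)
    · have h1 := hLIM p k (p - j) μ G H hp1 hk1 (by omega) hC happ hG hH
      have h2 : p - (p - j) = j := by omega
      rw [h2] at h1
      exact mul_le_mul_of_nonneg_right h1 (norm_nonneg _)
    · have hC2 : ¬ ((p - j) ^ 2 * (p + k) ^ 2 ≤ (p - (p - j)) ^ 2 * (2 * p + 1) * (k * (2 * p + k))) :=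
        fun h => hC (Or.inl h)
      have hp3 : p ≠ 3 := fun h => hC (Or.inr h)
      have h2 : p - (p - j) = j := by omega
      rw [h2, not_le] at hC2
      have hjlt : j < p := by
        rcases Nat.lt_or_ge j p with h | h
        · exact h
        · exfalso
          have h3 : p - j = 0 := by omega
          rw [h3] at hC2
          simp at hC2
      have h4 : N2b689f5b.coeff f j = 0 := by
        apply hvan j (Finset.mem_Ico.mpr ⟨hj1, hjlt⟩) _ hp3
        have h5 : ((j ^ 2 * (2 * p + 1) * (k * (2 * p + k)) : ℕ) : ℝ) < (((p - j) ^ 2 * (p + k) ^ 2 : ℕ) : ℝ) :=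
          Nat.cast_lt.mpr hC2
        push_cast [Nat.cast_sub hjp] at h5
        push_cast
        have h6 : ((p : ℝ) + k) ^ 2 - (p : ℝ) ^ 2 = k * (2 * p + k) := by ring
        rw [h6]
        exact h5
      rw [h4, norm_zero, mul_zero, mul_zero]
  have hbound : N2b689f5b.goodmanBound f p (p + k) = ∑ j ∈ Icc 1 p, AA p (p + k) j * ‖N2b689f5b.coeff f j‖ := rfl
  rw [hbound]
  refine le_trans ?_ (Finset.sum_le_sum hterm)
  have hint2 : g (p + k) = ∑ j ∈ Icc 1 p, (al p k (p - j) G H * g j +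
      be p k (p - j) G H * (starRingEnd ℂ) (g j)) := hinterp
  rw [hcg (p + k), hint2]
  calc ‖c‖ * ‖∑ j ∈ Icc 1 p, (al p k (p - j) G H * g j + be p k (p - j) G H * (starRingEnd ℂ) (g j))‖
      ≤ ‖c‖ * ∑ j ∈ Icc 1 p, ‖al p k (p - j) G H * g j + be p k (p - j) G H * (starRingEnd ℂ) (g j)‖ :=
        mul_le_mul_of_nonneg_left (norm_sum_le _ _) (norm_nonneg _)
    _ ≤ ‖c‖ * ∑ j ∈ Icc 1 p, (‖al p k (p - j) G H‖ + ‖be p k (p - j) G H‖) * ‖g j‖ := by
        refine mul_le_mul_of_nonneg_left (Finset.sum_le_sum fun j _ => ?_) (norm_nonneg _)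
        refine (norm_add_le _ _).trans (le_of_eq ?_)
        rw [norm_mul, norm_mul, Complex.norm_conj, add_mul]
    _ = ∑ j ∈ Icc 1 p, (‖al p k (p - j) G H‖ + ‖be p k (p - j) G H‖) * ‖N2b689f5b.coeff f j‖ := by
        rw [Finset.mul_sum]
        refine Finset.sum_congr rfl fun j _ => ?_
        rw [hcg j]
        ring

end Pool.Agent.GD
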