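import Pool.Agent.helper65.GD.Spec

/-!
# Row gdm:V3B (MP_ea335c_an): the case `p = 3`, `i = 2`
-/

set_option autoImplicit false

namespace Pool.Agent.GD

open Finset Metric Filter Topology

theorem V3B_var {N : ℕ} (w : Fin N → ℝ) (hw : ∑ l, w l = 1) (p : Fin N → ℂ) (c : ℂ)
    (hc : ∑ l, (w l : ℂ) * p l = c) :
    ∑ l, w l * ‖p l - c‖ ^ 2 = ∑ l, w l * ‖p l‖ ^ 2 - ‖c‖ ^ 2 := by
  have h1 : ∀ l, w l * ‖p l - c‖ ^ 2 = w l * ‖p l‖ ^ 2 + w l * ‖c‖ ^ 2 -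
      2 * ((w l : ℂ) * p l * (starRingEnd ℂ) c).re := by
    intro l
    rw [Complex.sq_norm, Complex.sq_norm, Complex.sq_norm, Complex.normSq_sub, mul_assoc (w l : ℂ),
      Complex.re_ofReal_mul]
    ring
  have h2 : ∑ l, ((w l : ℂ) * p l * (starRingEnd ℂ) c).re = ‖c‖ ^ 2 := by
    rw [← Complex.re_sum, ← Finset.sum_mul, hc, Complex.mul_conj, Complex.ofReal_re, Complex.sq_norm]
  rw [Finset.sum_congr rfl (fun l _ => h1 l), Finset.sum_sub_distrib, Finset.sum_add_distrib,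
    ← Finset.sum_mul, hw, ← Finset.mul_sum, h2]
  ring

theorem V3B (hEGM : EGM_stmt) (hQFM : QFM_stmt) : V3B_stmt := by
  intro N w x H hA hR
  obtain ⟨hw0, hw1, hx⟩ := hA
  -- the recursion
  have hH0 : H 0 = 1 := hR.1
  have hH1 : H 1 = -6 * mom w x 1 := by
    have h := hR.2 1
    simp only [Finset.sum_range_one, hH0] at h
    push_cast at h
    linear_combination h
  have hH2 : 2 * H 2 = -6 * (mom w x 2 + mom w x 1 * H 1) := by
    have h := hR.2 2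
    simp only [Finset.sum_range_succ, Finset.sum_range_zero, hH0] at h
    push_cast at h
    linear_combination h
  set m1 := mom w x 1 with hm1
  set m2 := mom w x 2 with hm2
  have hH2' : H 2 = 15 * m1 ^ 2 - 3 * (m2 - m1 ^ 2) := by
    rw [hH1] at hH2
    linear_combination (1 / 2) * hH2
  -- means
  have hE := hEGM (-6) N w x H 2 ⟨hw0, hw1, hx⟩ hR
  have hmean : ∑ l, (w l : ℂ) * pol H 2 (x l) = 1 / 3 * H 2 := by
    push_cast at hE
    linear_combination (-1 / 6) * hE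
  have hQ := hQFM (-6) N w x H 2 ⟨hw0, hw1, hx⟩ (by push_cast; exact hR)
  have hQ' : ∑ l, w l * ‖pol H 2 (x l)‖ ^ 2 = 4 + 8 / 3 * ‖H 1‖ ^ 2 - 1 / 3 * ‖H 2‖ ^ 2 := by
    simp only [Finset.sum_range_succ, Finset.sum_range_zero, hH0, norm_one] at hQ
    push_cast at hQ
    linarith
  have hvar := V3B_var w hw1 (fun l => pol H 2 (x l)) (1 / 3 * H 2) hmean
  rw [hvar, hQ']
  -- the moments
  have hv1 := V3B_var w hw1 x m1 (by rw [hm1]; unfold mom; simp)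
  have hv2 : ∑ l, w l * ‖x l‖ ^ 2 = 1 := by
    rw [← hw1]
    exact Finset.sum_congr rfl fun l _ => by rw [hx l]; ring
  rw [hv2] at hv1
  have hv3 : ‖m2 - m1 ^ 2‖ ≤ 1 - ‖m1‖ ^ 2 := by
    have h1 : m2 - m1 ^ 2 = ∑ l, (w l : ℂ) * (x l - m1) ^ 2 := by
      have h2 : ∀ l, (w l : ℂ) * (x l - m1) ^ 2 =
          (w l : ℂ) * x l ^ 2 - 2 * m1 * ((w l : ℂ) * x l) + m1 ^ 2 * (w l : ℂ) := by
        intro l
        ring
      have h3 : ∑ l, (w l : ℂ) = 1 := by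
        rw [← Complex.ofReal_sum, hw1, Complex.ofReal_one]
      have h4 : ∑ l, (w l : ℂ) * x l = m1 := by rw [hm1]; unfold mom; simp
      rw [Finset.sum_congr rfl (fun l _ => h2 l), Finset.sum_add_distrib, Finset.sum_sub_distrib,
        ← Finset.mul_sum, ← Finset.mul_sum, h3, h4]
      have h5 : ∑ l, (w l : ℂ) * x l ^ 2 = m2 := by rw [hm2]; rfl
      rw [h5]
      ring
    rw [h1, ← hv1]
    refine (norm_sum_le _ _).trans (Finset.sum_le_sum fun l _ => ?_)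
    rw [norm_mul, norm_pow, Complex.norm_real, Real.norm_of_nonneg (hw0 l)]
  have hn1 : ‖H 1‖ ^ 2 = 36 * ‖m1‖ ^ 2 := by
    rw [hH1, norm_mul, mul_pow]
    norm_num
  have hn3 : ‖(1 / 3 : ℂ) * H 2‖ ^ 2 = 1 / 9 * ‖H 2‖ ^ 2 := by
    rw [norm_mul, mul_pow]
    norm_num
  rw [hn1, hn3]
  set u := 1 - ‖m1‖ ^ 2 with hu
  have hu0 : 0 ≤ u := (norm_nonneg _).trans hv3
  have hlow : 15 - 18 * u ≤ ‖H 2‖ := by
    have h1 : ‖15 * m1 ^ 2‖ - ‖3 * (m2 - m1 ^ 2)‖ ≤ ‖H 2‖ := by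
      rw [hH2']
      exact norm_sub_norm_le _ _
    have h2 : ‖15 * m1 ^ 2‖ = 15 * ‖m1‖ ^ 2 := by
      rw [norm_mul, norm_pow]
      norm_num
    have h3 : ‖3 * (m2 - m1 ^ 2)‖ = 3 * ‖m2 - m1 ^ 2‖ := by
      rw [norm_mul]
      norm_num
    rw [h2, h3] at h1
    have h4 : ‖m1‖ ^ 2 = 1 - u := by rw [hu]; ring
    rw [h4] at h1
    linarith
  have h4 : ‖m1‖ ^ 2 = 1 - u := by rw [hu]; ring
  rw [h4]
  have key : 375 / 16 - 96 * u ≤ 5 / 48 * ‖H 2‖ ^ 2 := by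
    by_cases h5 : 5 / 6 ≤ u
    · have := sq_nonneg ‖H 2‖
      nlinarith
    · have h6 : 0 ≤ 15 - 18 * u := by linarith [not_le.mp h5]
      have h7 : (15 - 18 * u) ^ 2 ≤ ‖H 2‖ ^ 2 := pow_le_pow_left₀ h6 hlow 2
      nlinarith [sq_nonneg u]
  linarith

end Pool.Agent.GD
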